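import Pool.Agent.Helper45.AM.GoalsA
import Pool.Agent.Helper45.AM.GoalsD
import Pool.Agent.Helper15.AM.GoalsG

/-!
# Project AM (MP_cc6379_al), packet AM-D5: rewriting a non-chosen element.
-/

set_option autoImplicit false

open LaurentPolynomial Pool.Agent.Helper15.RA Pool.Agent.Helper45.AM Pool.Agent.Helper15.AM

noncomputable section

namespace Pool.Agent.Helper60.AM

variable {S W H : Type} [Group W] [Ring H] [Algebra ℤ[T;T⁻¹] H] (X : AC S W H)

/-- The combinations of the `c_g`, `g ∈ W_Q`, `α g ≥ m`. -/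
def Cm (Q : Set S) (m : ℕ) : Submodule ℤ[T;T⁻¹] H :=
  Submodule.span ℤ[T;T⁻¹] {Z | ∃ g, g ∈ par X.cs Q ∧ m ≤ X.α g ∧ Z = X.D.c g}

theorem t_eq_sum (Z : H) : Z = (X.b.repr Z).sum fun u p => p • X.D.c u := by
  conv_lhs => rw [← X.b.linearCombination_repr Z]
  rw [Finsupp.linearCombination_apply]
  simp only [X.hb]

theorem t_eq_sumT (Z : H) : Z = (X.D.t.repr Z).sum fun u p => p • X.D.t u := by
  conv_lhs => rw [← X.D.t.linearCombination_repr Z]
  rw [Finsupp.linearCombination_apply]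

variable {X}

theorem c_mul_t (hAS : A_S) {Q : Set S} (hpg : PG X.D X.h Q X.α) {g l : W} (hg : g ∈ par X.cs Q)
    (hl : l ∈ par X.cs Q) : X.D.c g * X.D.t l ∈ Cm X Q (X.α g) := by
  rw [t_eq_sum X (X.D.t l), Finsupp.sum, Finset.mul_sum]
  refine Submodule.sum_mem _ fun u hu => ?_
  have hu' : u ∈ par X.cs Q :=
    (hAS S W H X.toBase Q).2.2.2.2.1 l hl u (Finsupp.mem_support_iff.1 hu)
  rw [mul_smul_comm]
  refine Submodule.smul_mem _ _ ?_
  rw [X.isH g u, Finsupp.sum]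
  refine Submodule.sum_mem _ fun z hz => Submodule.smul_mem _ _ (Submodule.subset_span ⟨z, ?_, ?_, rfl⟩)
  · exact (hAS S W H X.toBase Q).2.2.2.2.2.1 g hg u hu' z (Finsupp.mem_support_iff.1 hz)
  · exact (hpg.p4 g hg u hu' z ((hAS S W H X.toBase Q).2.2.2.2.2.1 g hg u hu' z
      (Finsupp.mem_support_iff.1 hz)) (Finsupp.mem_support_iff.1 hz)).1

theorem t_mul_c (hAS : A_S) {Q : Set S} (hpg : PG X.D X.h Q X.α) {g l : W} (hg : g ∈ par X.cs Q)
    (hl : l ∈ par X.cs Q) : X.D.t l * X.D.c g ∈ Cm X Q (X.α g) := by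
  rw [t_eq_sum X (X.D.t l), Finsupp.sum, Finset.sum_mul]
  refine Submodule.sum_mem _ fun u hu => ?_
  have hu' : u ∈ par X.cs Q :=
    (hAS S W H X.toBase Q).2.2.2.2.1 l hl u (Finsupp.mem_support_iff.1 hu)
  rw [smul_mul_assoc]
  refine Submodule.smul_mem _ _ ?_
  rw [X.isH u g, Finsupp.sum]
  refine Submodule.sum_mem _ fun z hz => Submodule.smul_mem _ _ (Submodule.subset_span ⟨z, ?_, ?_, rfl⟩)
  · exact (hAS S W H X.toBase Q).2.2.2.2.2.1 u hu' g hg z (Finsupp.mem_support_iff.1 hz)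
  · exact (hpg.p4 u hu' g hg z ((hAS S W H X.toBase Q).2.2.2.2.2.1 u hu' g hg z
      (Finsupp.mem_support_iff.1 hz)) (Finsupp.mem_support_iff.1 hz)).2

/-- `T_x Z T_y` for a combination `Z`. -/
theorem span_B {Q : Set S} {m : ℕ} {Z : H} (hZ : Z ∈ Cm X Q m) (N : Submodule ℤ[T;T⁻¹] H) (x y : W)
    (h : ∀ g, g ∈ par X.cs Q → m ≤ X.α g → X.B x g y ∈ N) : X.D.t x * Z * X.D.t y ∈ N := by
  unfold Cm at hZ
  induction hZ using Submodule.span_induction with
  | mem Z hZ =>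
    obtain ⟨g, h1, h2, rfl⟩ := hZ
    exact h g h1 h2
  | zero => simp
  | add Y Z _ _ h1 h2 =>
    rw [mul_add, add_mul]
    exact add_mem h1 h2
  | smul a Z _ h1 =>
    rw [mul_smul_comm, smul_mul_assoc]
    exact Submodule.smul_mem _ _ h1

theorem mem_LI {M n s : ℕ} {x g y : W} (h1 : X.Adm x g y) (h2 : M < X.α g)
    (h3 : X.nn x g y < n ∨ (X.nn x g y ≤ n ∧ g ∉ par X.cs X.K ∧ X.sl x < s)) : X.B x g y ∈ X.LI M n s :=
  Submodule.subset_span ⟨x, g, y, h1, h2, h3, rfl⟩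

theorem nn_in {x g y : W} (h : g ∈ par X.cs X.K) : X.nn x g y = X.sl x + X.sl y := by
  unfold AC.nn
  rw [if_pos h, add_zero]

theorem nn_out {x g y : W} (h : g ∉ par X.cs X.K) : X.nn x g y = X.sl x + 1 + X.sl y := by
  unfold AC.nn
  rw [if_neg h]

theorem nn_le {x g y : W} : X.nn x g y ≤ X.sl x + 1 + X.sl y := by
  unfold AC.nn
  split_ifs <;> omega

theorem XR_one (P : Set S) : XR X.cs P 1 := fun i _ => by simp

theorem XL_one (P : Set S) : XL X.cs P 1 := fun i _ => by simp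

/-! ## Representable elements -/

/-- The conclusion of `D_5` with degree bound `α κ' + k`. -/
def Rep (X : AC S W H) (M n : ℕ) (b : Bool) (x y : W) (k : ℤ) (Z : H) : Prop :=
  ∃ e : W × W →₀ ℤ[T;T⁻¹],
    (∀ r ∈ e.support, XR X.cs (X.F b) r.1 ∧ r.2 ∈ par X.cs (X.F b) ∧ r.2 ∉ par X.cs X.K ∧ X.sl r.1 = X.sl x ∧
      M < X.α r.2 ∧ ∀ κ' β', κ' ∈ par X.cs X.K → XL X.cs X.K β' → r.2 = κ' * β' →
        DegLE ((X.α κ' : ℤ) + k) (e r)) ∧
    Z - (e.sum fun r p => p • X.B r.1 r.2 y) ∈ X.LI M n (X.sl x)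

section rep

variable {M n : ℕ} {b : Bool} {x y : W} {k j : ℤ} {Y Z : H}

theorem Rep.of_LI (h : Z ∈ X.LI M n (X.sl x)) : Rep X M n b x y k Z :=
  ⟨0, by simp, by simpa using h⟩

theorem Rep.add (hY : Rep X M n b x y k Y) (hZ : Rep X M n b x y k Z) : Rep X M n b x y k (Y + Z) := by
  classical
  obtain ⟨e1, h1, h2⟩ := hY
  obtain ⟨e2, h3, h4⟩ := hZ
  refine ⟨e1 + e2, fun r hr => ?_, ?_⟩
  · have h5 : r ∈ e1.support ∨ r ∈ e2.support := by
      have := Finsupp.support_add hr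
      simpa using this
    have h6 : ∀ κ' β', κ' ∈ par X.cs X.K → XL X.cs X.K β' → r.2 = κ' * β' →
        DegLE ((X.α κ' : ℤ) + k) ((e1 + e2) r) := by
      intro κ' β' hκ hβ hr2
      rw [Finsupp.add_apply]
      refine DegLE.add ?_ ?_
      · by_cases h7 : r ∈ e1.support
        · exact (h1 r h7).2.2.2.2.2 κ' β' hκ hβ hr2
        · rw [Finsupp.notMem_support_iff.1 h7]; exact DegLE.zero _
      · by_cases h7 : r ∈ e2.support
        · exact (h3 r h7).2.2.2.2.2 κ' β' hκ hβ hr2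
        · rw [Finsupp.notMem_support_iff.1 h7]; exact DegLE.zero _
    rcases h5 with h5 | h5
    · exact ⟨(h1 r h5).1, (h1 r h5).2.1, (h1 r h5).2.2.1, (h1 r h5).2.2.2.1, (h1 r h5).2.2.2.2.1, h6⟩
    · exact ⟨(h3 r h5).1, (h3 r h5).2.1, (h3 r h5).2.2.1, (h3 r h5).2.2.2.1, (h3 r h5).2.2.2.2.1, h6⟩
  · rw [Finsupp.sum_add_index' (by intro a; simp) (by intro a p q; rw [add_smul]), add_sub_add_comm]
    exact add_mem h2 h4

theorem Rep.smul {p : ℤ[T;T⁻¹]} (hp : DegLE j p) (hZ : Rep X M n b x y k Z) :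
    Rep X M n b x y (j + k) (p • Z) := by
  classical
  obtain ⟨e, h1, h2⟩ := hZ
  refine ⟨p • e, fun r hr => ?_, ?_⟩
  · have h5 : r ∈ e.support := Finsupp.support_smul hr
    refine ⟨(h1 r h5).1, (h1 r h5).2.1, (h1 r h5).2.2.1, (h1 r h5).2.2.2.1, (h1 r h5).2.2.2.2.1, ?_⟩
    intro κ' β' hκ hβ hr2
    rw [Finsupp.smul_apply, smul_eq_mul]
    exact hp.mul_le ((h1 r h5).2.2.2.2.2 κ' β' hκ hβ hr2) (by omega)
  · have h6 : ((p • e).sum fun r p => p • X.B r.1 r.2 y) = p • (e.sum fun r p => p • X.B r.1 r.2 y) := by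
      rw [Finsupp.sum_smul_index (by intro a; simp), Finsupp.smul_sum]
      refine Finsupp.sum_congr fun r _ => ?_
      rw [mul_smul]
    rw [h6, ← smul_sub]
    exact Submodule.smul_mem _ _ h2

theorem Rep.neg (hZ : Rep X M n b x y k Z) : Rep X M n b x y k (-Z) := by
  have := Rep.smul (p := (-1 : ℤ[T;T⁻¹])) (j := 0) (DegLE.one le_rfl).neg hZ
  simpa using this

theorem Rep.sub (hY : Rep X M n b x y k Y) (hZ : Rep X M n b x y k Z) : Rep X M n b x y k (Y - Z) := by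
  rw [sub_eq_add_neg]
  exact hY.add hZ.neg

theorem Rep.sum {ι : Type*} {s : Finset ι} {f : ι → H} (h : ∀ i ∈ s, Rep X M n b x y k (f i)) :
    Rep X M n b x y k (∑ i ∈ s, f i) := by
  classical
  induction s using Finset.induction_on with
  | empty => exact Rep.of_LI (by simp)
  | insert i s hi ih =>
    rw [Finset.sum_insert hi]
    exact (h i (Finset.mem_insert_self i s)).add (ih fun j hj => h j (Finset.mem_insert_of_mem hj))

theorem Rep.single {x' z : W} {q : ℤ[T;T⁻¹]} (h1 : XR X.cs (X.F b) x') (h2 : z ∈ par X.cs (X.F b))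
    (h3 : z ∉ par X.cs X.K) (h4 : X.sl x' = X.sl x) (h5 : M < X.α z)
    (h6 : ∀ κ' β', κ' ∈ par X.cs X.K → XL X.cs X.K β' → z = κ' * β' → DegLE ((X.α κ' : ℤ) + k) q) :
    Rep X M n b x y k (q • X.B x' z y) := by
  classical
  refine ⟨Finsupp.single (x', z) q, fun r hr => ?_, ?_⟩
  · have hr' : r = (x', z) := by
      have := Finsupp.support_single_subset hr
      simpa using this
    subst hr'
    refine ⟨h1, h2, h3, h4, h5, ?_⟩
    intro κ' β' hκ hβ hr2
    rw [Finsupp.single_eq_same]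
    exact h6 κ' β' hκ hβ hr2
  · rw [Finsupp.sum_single_index (by simp), sub_self]
    exact zero_mem _

theorem Rep.zsmul (m : ℤ) (hZ : Rep X M n b x y k Z) : Rep X M n b x y k (m • Z) := by
  have h := Rep.smul (j := 0) (DegLE.intCast m le_rfl) hZ
  rw [zero_add, Int.cast_smul_eq_zsmul] at h
  exact h

end rep

/-! ## Supports -/

theorem mul_eq_sum (Y Z : H) : Y * Z = ∑ u ∈ (X.D.t.repr Y).support, ∑ w ∈ (X.D.t.repr Z).support,
    (X.D.t.repr Y u * X.D.t.repr Z w) • (X.D.t u * X.D.t w) := by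
  conv_lhs => rw [t_eq_sumT X Y, t_eq_sumT X Z]
  rw [Finsupp.sum, Finsupp.sum, Finset.sum_mul_sum]
  refine Finset.sum_congr rfl fun u _ => Finset.sum_congr rfl fun w _ => ?_
  rw [smul_mul_smul_comm]

theorem sl_mul (hD1 : D_1) {m m' : ℕ} {Y Z : H} (hY : ∀ z, X.D.t.repr Y z ≠ 0 → X.sl z ≤ m)
    (hZ : ∀ z, X.D.t.repr Z z ≠ 0 → X.sl z ≤ m') (z : W) (hz : X.D.t.repr (Y * Z) z ≠ 0) :
    X.sl z ≤ m + m' := by
  classical
  by_contra hlt
  apply hz
  rw [mul_eq_sum (X := X) Y Z]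
  simp only [map_sum, map_smul, Finsupp.coe_finsetSum, Finset.sum_apply, Finsupp.smul_apply, smul_eq_mul]
  refine Finset.sum_eq_zero fun u hu => Finset.sum_eq_zero fun w hw => ?_
  have h1 := hY u (Finsupp.mem_support_iff.1 hu)
  have h2 := hZ w (Finsupp.mem_support_iff.1 hw)
  by_cases h3 : X.D.t.repr (X.D.t u * X.D.t w) z = 0
  · rw [h3, mul_zero]
  · have h4 := (hD1 S W H X).1 u w z h3
    omega

theorem mul_right_mem {Y U : H} {m : ℕ} (hU : ∀ z, X.D.t.repr U z ≠ 0 → X.sl z ≤ m)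
    (N : Submodule ℤ[T;T⁻¹] H) (h : ∀ u, X.sl u ≤ m → Y * X.D.t u ∈ N) : Y * U ∈ N := by
  rw [t_eq_sumT X U, Finsupp.sum, Finset.mul_sum]
  refine Submodule.sum_mem _ fun u hu => ?_
  rw [mul_smul_comm]
  exact Submodule.smul_mem _ _ (h u (hU u (Finsupp.mem_support_iff.1 hu)))

theorem supp_tc (hAS : A_S) (hB3 : B_3) {x g w : W} (hg : g ∈ par X.cs X.K)
    (h : X.D.t.repr (X.D.t x * X.D.c g) w ≠ 0) : X.sl w = X.sl x := by
  classical
  by_contra hne
  apply h
  rw [t_eq_sumT X (X.D.c g), Finsupp.sum, Finset.mul_sum]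
  simp only [mul_smul_comm, map_sum, map_smul, Finsupp.coe_finsetSum, Finset.sum_apply, Finsupp.smul_apply,
    smul_eq_mul]
  refine Finset.sum_eq_zero fun u hu => ?_
  have hu' : u ∈ par X.cs X.K := (hAS S W H X.toBase X.K).2.2.2.1 g hg u (Finsupp.mem_support_iff.1 hu)
  by_cases h3 : X.D.t.repr (X.D.t x * X.D.t u) w = 0
  · rw [h3, mul_zero]
  · exfalso
    have h4 := (hAS S W H X.toBase X.K).2.1 u hu' x w h3
    apply hne
    have h5 := ((hB3 S W H X).2.2.2.2.1 x _ h4).1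
    rwa [mul_inv_cancel_left] at h5

/-- The relative Kazhdan-Lusztig expansion, with control of `sl`. -/
theorem ak_sl (hAS : A_S) (hAK : A_K) (hB3 : B_3) (hD1 : D_1) {x g : W} (hx : XR X.cs X.K x)
    (hg : g ∈ par X.cs X.K) : ∃ p : W × W →₀ ℤ[T;T⁻¹], (∀ r, DegLE (-1) (p r)) ∧
    (∀ r ∈ p.support, XR X.cs X.K r.1 ∧ r.2 ∈ par X.cs X.K ∧ X.sl r.1 ≤ X.sl x) ∧
    X.D.t x * X.D.c g = X.D.c (x * g) - ∑ r ∈ p.support, p r • (X.D.t r.1 * X.D.c r.2) := by
  classical
  obtain ⟨-, -, -, p, hp1, hp2, hp3⟩ := hAK S W H X.toBase X.K x g hx hg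
  refine ⟨p.filter fun r => X.sl r.1 ≤ X.sl x, fun r => ?_, fun r hr => ?_, ?_⟩
  · rw [Finsupp.filter_apply]
    split_ifs
    · exact hp1 r
    · exact DegLE.zero _
  · rw [Finsupp.support_filter, Finset.mem_filter] at hr
    exact ⟨(hp2 r hr.1).1, (hp2 r hr.1).2.1, hr.2⟩
  · have e1 : ∑ r ∈ (p.filter fun r => X.sl r.1 ≤ X.sl x).support,
        (p.filter fun r => X.sl r.1 ≤ X.sl x) r • (X.D.t r.1 * X.D.c r.2) =
        ∑ r ∈ p.support with X.sl r.1 ≤ X.sl x, p r • (X.D.t r.1 * X.D.c r.2) := by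
      rw [Finsupp.support_filter]
      refine Finset.sum_congr rfl fun r hr => ?_
      rw [Finsupp.filter_apply, if_pos (Finset.mem_filter.1 hr).2]
    rw [e1]
    have e2 := Finset.sum_filter_add_sum_filter_not p.support (fun r => X.sl r.1 ≤ X.sl x)
      (fun r => p r • (X.D.t r.1 * X.D.c r.2))
    have e3 : X.D.c (x * g) - X.D.t x * X.D.c g = ∑ r ∈ p.support, p r • (X.D.t r.1 * X.D.c r.2) := by
      rw [hp3, Finsupp.sum]
      abel
    have e4 : ∑ r ∈ p.support with ¬ X.sl r.1 ≤ X.sl x, p r • (X.D.t r.1 * X.D.c r.2) = 0 := by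
      apply X.D.t.repr.injective
      rw [map_zero]
      ext1 w
      rw [Finsupp.zero_apply]
      by_cases hw : X.sl w ≤ X.sl x
      · simp only [map_sum, map_smul, Finsupp.coe_finsetSum, Finset.sum_apply, Finsupp.smul_apply, smul_eq_mul]
        refine Finset.sum_eq_zero fun r hr => ?_
        by_cases h3 : X.D.t.repr (X.D.t r.1 * X.D.c r.2) w = 0
        · rw [h3, mul_zero]
        · exfalso
          have h4 := supp_tc hAS hB3 (hp2 r (Finset.mem_filter.1 hr).1).2.1 h3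
          exact (Finset.mem_filter.1 hr).2 (h4 ▸ hw)
      · have e5 : ∑ r ∈ p.support with ¬ X.sl r.1 ≤ X.sl x, p r • (X.D.t r.1 * X.D.c r.2) =
            (X.D.c (x * g) - X.D.t x * X.D.c g) -
              ∑ r ∈ p.support with X.sl r.1 ≤ X.sl x, p r • (X.D.t r.1 * X.D.c r.2) := by
          rw [e3, ← e2]
          abel
        rw [e5, map_sub, map_sub, Finsupp.sub_apply, Finsupp.sub_apply]
        have f1 : X.D.t.repr (X.D.c (x * g)) w = 0 := by
          by_contra h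
          have h1 := (hD1 S W H X).2.2.1 (x * g) w h
          rw [((hB3 S W H X).2.2.2.2.1 x g hg).1] at h1
          exact hw h1
        have f2 : X.D.t.repr (X.D.t x * X.D.c g) w = 0 := by
          by_contra h
          exact hw (supp_tc hAS hB3 hg h).le
        have f3 : X.D.t.repr (∑ r ∈ p.support with X.sl r.1 ≤ X.sl x, p r • (X.D.t r.1 * X.D.c r.2)) w = 0 := by
          simp only [map_sum, map_smul, Finsupp.coe_finsetSum, Finset.sum_apply, Finsupp.smul_apply,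
            smul_eq_mul]
          refine Finset.sum_eq_zero fun r hr => ?_
          by_cases h3 : X.D.t.repr (X.D.t r.1 * X.D.c r.2) w = 0
          · rw [h3, mul_zero]
          · exfalso
            have h4 := supp_tc hAS hB3 (hp2 r (Finset.mem_filter.1 hr).1).2.1 h3
            exact hw (h4.le.trans (Finset.mem_filter.1 hr).2)
        rw [f1, f2, f3]
        simp
    rw [e4, add_zero] at e2
    rw [e2, ← e3]
    abel

/-! ## The three parts -/

theorem z1 (hGC : G_PC) (hAS : A_S) (hB1 : B_1) (hB3 : B_3) (hC7b : C_7b) {M n : ℕ} {x y x1 g1 y1 u' : W}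
    (hn : n = X.sl x + 1 + X.sl y) (hx : 0 < X.sl x) (hadm : X.Adm x1 g1 y1) (hM : M < X.α g1)
    (hnn : X.nn x1 g1 y1 ≤ X.sl x) (hu : X.sl u' ≤ X.sl y1 + 1 + X.sl y) :
    X.D.t x1 * X.D.c g1 * X.D.t u' ∈ X.LI M n (X.sl x) := by
  have hsl1 : X.sl (1 : W) = 0 := ((hB3 S W H X).1 1).2 (one_mem _)
  by_cases hg : g1 ∈ par X.cs X.K
  · have hx1 : XR X.cs X.K x1 := by
      rcases hadm with ⟨c, h1, -, -⟩ | ⟨h1, -, -⟩
      · exact ((hB1 S W H X).2.2.1 c x1).1 h1
      · exact h1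
    obtain ⟨κ, hκ, y', hy', rfl⟩ := (hGC S W X.M X.cs X.K).2.2.2.1 u'
    have hlen := (hGC S W X.M X.cs X.K).2.2.2.2.1 y' hy' κ hκ
    have hsl := ((hB3 S W H X).2.2.2.2.1 y' κ hκ).2
    rw [hsl] at hu
    rw [nn_in hg] at hnn
    rw [← X.D.mul κ y' hlen, ← mul_assoc, mul_assoc (X.D.t x1)]
    refine span_B (Q := X.K) (c_mul_t hAS X.pgK hg hκ) _ _ _ fun g' hg' hα => ?_
    have hadm' : X.Adm x1 g' y' := Or.inr ⟨hx1, hg', hy'⟩
    by_cases hxy : x1 ≠ 1 ∨ y' ≠ 1
    · obtain ⟨e, he1, he2⟩ := hC7b S W H X x1 g' y' hadm' hg' hxy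
      rw [he1, Finsupp.sum]
      refine Submodule.sum_mem _ fun r hr => Submodule.smul_mem _ _ ?_
      obtain ⟨a1, a2, a3, -⟩ := he2 r hr
      rw [nn_in hg'] at a3
      refine mem_LI a1 (by omega) ?_
      rcases a3 with a3 | ⟨a3, a5, a6⟩
      · left
        omega
      · right
        refine ⟨by omega, a5, ?_⟩
        rcases a6 with a6 | a6
        · omega
        · rw [a6, hsl1]
          exact hx
    · push Not at hxy
      obtain ⟨rfl, rfl⟩ := hxy
      refine mem_LI hadm' (by omega) (Or.inl ?_)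
      rw [nn_in hg', hsl1]
      omega
  · rcases hadm with ⟨c, h1, h2, h3⟩ | ⟨-, h, -⟩
    · obtain ⟨l', hl', y', hy', rfl⟩ := (hGC S W X.M X.cs (X.F c)).2.2.2.1 u'
      have hlen := (hGC S W X.M X.cs (X.F c)).2.2.2.2.1 y' hy' l' hl'
      have hsl : X.sl y' ≤ X.sl (l' * y') := by
        by_cases h : l' ∈ par X.cs X.K
        · exact ((hB3 S W H X).2.2.2.2.1 y' l' h).2.ge
        · rw [(hB3 S W H X).2.2.2.2.2.2.2.2 c y' l' hy' hl' h]
          omega
      rw [nn_out hg] at hnn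
      rw [← X.D.mul l' y' hlen, ← mul_assoc, mul_assoc (X.D.t x1)]
      refine span_B (Q := X.F c) (c_mul_t hAS (X.pg c) h2 hl') _ _ _ fun g' hg' hα => ?_
      have hadm' : X.Adm x1 g' y' := Or.inl ⟨c, h1, hg', hy'⟩
      by_cases hgK : g' ∈ par X.cs X.K
      · refine mem_LI hadm' (by omega) (Or.inl ?_)
        rw [nn_in hgK]
        omega
      · refine mem_LI hadm' (by omega) (Or.inr ⟨?_, hgK, by omega⟩)
        rw [nn_out hgK]
        omega
    · exact absurd h hg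

theorem z2 (hAS : A_S) (hB1 : B_1) (hB3 : B_3) {M n : ℕ} {b : Bool} {x y x' z : W} {k : ℤ}
    {q : ℤ[T;T⁻¹]} (hn : n = X.sl x + 1 + X.sl y) (hy : XL X.cs (X.F b) y) (hx' : XR X.cs X.K x')
    (hsl : X.sl x' ≤ X.sl x) (hz : z ∈ par X.cs (X.F b)) (hM : M < X.α z)
    (hdeg : ∀ κ' β', κ' ∈ par X.cs X.K → XL X.cs X.K β' → z = κ' * β' → DegLE ((X.α κ' : ℤ) + k) q) :
    Rep X M n b x y k (q • X.B x' z y) := by
  by_cases hxb : XR X.cs (X.F b) x'
  · by_cases hzK : z ∈ par X.cs X.K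
    · refine Rep.of_LI (Submodule.smul_mem _ _ (mem_LI (Or.inl ⟨b, hxb, hz, hy⟩) hM (Or.inl ?_)))
      rw [nn_in hzK]
      omega
    · rcases hsl.lt_or_eq with h | h
      · refine Rep.of_LI (Submodule.smul_mem _ _ (mem_LI (Or.inl ⟨b, hxb, hz, hy⟩) hM (Or.inl ?_)))
        rw [nn_out hzK]
        omega
      · exact Rep.single hxb hz hzK h hM hdeg
  · obtain ⟨c, hc⟩ := (hB1 S W H X).2.2.2.1 x' hx'
    have hcb : c = !b := by
      by_contra h
      have : c = b := by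
        cases b <;> cases c <;> simp_all
      exact hxb (this ▸ hc)
    subst hcb
    have hx1 : x' ≠ 1 := by
      rintro rfl
      exact hxb (XR_one _)
    obtain ⟨x'', a, hxa, h1, h2, h3, h4, h5⟩ := (hB1 S W H X).2.2.2.2.2.1 (!b) x' hc hx1
    rw [Bool.not_not] at h1 h2
    have haK : a ∉ par X.cs X.K := fun h => h4 ((hB1 S W H X).2.2.2.2.2.2.2.1 a (Or.inl h3) h)
    have hsl2 : X.sl (x'' * a) = X.sl x'' + 1 := (hB3 S W H X).2.2.2.2.2.2.2.1 b x'' a h1 h2 haK
    subst hxa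
    refine Rep.of_LI (Submodule.smul_mem _ _ ?_)
    unfold AC.B
    rw [← X.D.mul x'' a h5, mul_assoc (X.D.t x'') (X.D.t a) (X.D.c z)]
    refine span_B (Q := X.F b) (t_mul_c hAS (X.pg b) hz h2) _ _ _ fun g' hg' hα =>
      mem_LI (Or.inl ⟨b, h1, hg', hy⟩) (by omega) (Or.inl (lt_of_le_of_lt nn_le ?_))
    omega

/-! ## The theorem -/

theorem h_d_5 (hGC : G_PC) (hAS : A_S) (hAK : A_K) (hAO : A_O) (hAP : A_P) (hAC : A_C) (hAU : A_U)
    (hB1 : B_1) (hB3 : B_3) (hB7 : B_7) (hC7b : C_7b) (hD1 : D_1) : D_5 := by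
  classical
  intro S W H _ _ _ X M n b x g y κ β hCC hTp hM hnn hx1 hκ hβ hg hGe
  obtain ⟨hxb, hgb, hgK, hyb⟩ := hTp
  have hn : n = X.sl x + 1 + X.sl y := by rw [← hnn, nn_out hgK]
  have hxK : XR X.cs X.K x := ((hB1 S W H X).2.2.1 b x).1 hxb
  have hKb : par X.cs X.K ≤ par X.cs (X.F b) := (hB1 S W H X).1 b
  have hβb : β ∈ par X.cs (X.F b) := by
    have : β = κ⁻¹ * g := by rw [hg, inv_mul_cancel_left]
    rw [this]
    exact mul_mem (inv_mem (hKb hκ)) hgb
  have hKsub : X.K ⊆ X.F b := by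
    cases b
    · exact Set.inter_subset_right
    · exact Set.inter_subset_left
  have hslx : 0 < X.sl x := by
    by_contra h
    have h0 : X.sl x = 0 := by omega
    exact hx1 ((hB1 S W H X).2.2.2.2.2.2.2.1 x (Or.inl hxK) (((hB3 S W H X).1 x).1 h0))
  have hpgK : PG X.D X.h X.K X.α := X.pgK
  obtain ⟨lam, e0, hl, he, hc⟩ := hAU S W H X.toBase X.K (X.F b) X.α hKsub hpgK (X.pg b) κ β hκ hβ hβb
  have hB : X.B x g y = (T (-(X.α κ : ℤ)) : ℤ[T;T⁻¹]) • (∑ p ∈ lam.support,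
      lam p • (X.D.t x * X.D.c p.1 * X.D.c (p.2 * β) * X.D.t y)) - ∑ z ∈ e0.support, e0 z • X.B x z y := by
    unfold AC.B
    rw [hg, hc, Finsupp.sum, Finsupp.sum, mul_sub, sub_mul]
    congr 1
    · rw [mul_smul_comm, smul_mul_assoc, Finset.mul_sum, Finset.sum_mul]
      congr 1
      refine Finset.sum_congr rfl fun p _ => ?_
      rw [mul_smul_comm, smul_mul_assoc]
      simp only [mul_assoc]
    · rw [Finset.mul_sum, Finset.sum_mul]
      refine Finset.sum_congr rfl fun p _ => ?_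
      rw [mul_smul_comm, smul_mul_assoc]
  -- the main claim
  have key : Rep X M n b x y (-(X.α κ : ℤ) + (-1)) (X.B x g y) := by
    rw [hB]
    refine Rep.sub (Rep.smul (DegLE.T_le le_rfl) (Rep.sum fun p hp => Rep.zsmul _ ?_))
      (Rep.sum fun z hz => ?_)
    · obtain ⟨hp1, hp2, hpR, hpL⟩ := hl p hp
      obtain ⟨p', hq1, hq2, hq3⟩ := ak_sl (X := X) hAS hAK hB3 hD1 hxK hp1
      have hpβ : p.2 * β ∈ par X.cs (X.F b) := mul_mem (hKb hp2) hβb
      have hαp : X.α g ≤ X.α (p.2 * β) := by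
        have h1 := (hAO S W H X.toBase X.K (X.F b)).2.2.2.2.2 hKsub β κ p.2 hβ hκ hpL.1
        have h2 := ((hAP S W H X.toBase (X.F b) X.α (X.pg b)).2.1 (p.2 * β) (κ * β)
          (mul_mem (hKb hκ) hβb) h1).2
        rw [hg]
        exact h2
      rw [hq3, sub_mul, sub_mul, Finset.sum_mul, Finset.sum_mul]
      refine Rep.sub (Rep.of_LI ?_) (Rep.sum fun r hr => ?_)
      · -- Z₁
        have hGe' : X.Ge (M + 1) (x * p.1) := (hB7 S W H X (M + 1)).2.1 x κ p.1 hxK hκ hpR.1 hGe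
        have hslp : X.sl (x * p.1) = X.sl x := ((hB3 S W H X).2.2.2.2.1 x p.1 hp1).1
        have hI : X.D.c (x * p.1) ∈ X.Idl M (X.sl x) := by
          have := hCC (x * p.1) (by rw [hslp]; omega) hGe'
          rwa [hslp] at this
        have hgen : ∀ Z ∈ X.Idl M (X.sl x), Z * X.D.c (p.2 * β) * X.D.t y ∈ X.LI M n (X.sl x) := by
          intro Z hZ
          unfold AC.Idl at hZ
          induction hZ using Submodule.span_induction with
          | mem Z hZ =>
            obtain ⟨x1, g1, y1, a1, a2, a3, rfl⟩ := hZ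
            have hU : ∀ z, X.D.t.repr (X.D.t y1 * X.D.c (p.2 * β) * X.D.t y) z ≠ 0 →
                X.sl z ≤ X.sl y1 + 1 + X.sl y := by
              intro z hz
              refine sl_mul hD1 (sl_mul hD1 ?_ ?_) ?_ z hz
              · intro z hz
                rw [Module.Basis.repr_self] at hz
                by_cases h : z = y1
                · rw [h]
                · exact absurd (Finsupp.single_eq_of_ne h) hz
              · intro z hz
                exact ((hD1 S W H X).2.2.1 (p.2 * β) z hz).trans ((hB3 S W H X).2.2.2.2.2.1 b _ hpβ)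
              · intro z hz
                rw [Module.Basis.repr_self] at hz
                by_cases h : z = y
                · rw [h]
                · exact absurd (Finsupp.single_eq_of_ne h) hz
            have e1 : X.B x1 g1 y1 * X.D.c (p.2 * β) * X.D.t y =
                X.D.t x1 * X.D.c g1 * (X.D.t y1 * X.D.c (p.2 * β) * X.D.t y) := by
              unfold AC.B
              simp only [mul_assoc]
            rw [e1]
            exact mul_right_mem hU _ fun u hu => z1 hGC hAS hB1 hB3 hC7b hn hslx a1 a2 a3 hu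
          | zero => simp
          | add Y Z _ _ h1 h2 =>
            rw [add_mul, add_mul]
            exact add_mem h1 h2
          | smul a Z _ h1 =>
            rw [smul_mul_assoc, smul_mul_assoc]
            exact Submodule.smul_mem _ _ h1
        exact hgen _ hI
      · -- Z₂
        obtain ⟨hr1, hr2, hr3⟩ := hq2 r hr
        have e2 : p' r • (X.D.t r.1 * X.D.c r.2) * X.D.c (p.2 * β) * X.D.t y =
            p' r • ∑ z ∈ (X.h r.2 (p.2 * β)).support, X.h r.2 (p.2 * β) z • X.B r.1 z y := by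
          rw [smul_mul_assoc, smul_mul_assoc]
          congr 1
          rw [mul_assoc (X.D.t r.1), X.isH r.2 (p.2 * β), Finsupp.sum, Finset.mul_sum, Finset.sum_mul]
          refine Finset.sum_congr rfl fun z _ => ?_
          rw [mul_smul_comm, smul_mul_assoc]
          rfl
        rw [e2]
        have h0 : Rep X M n b x y 0 (∑ z ∈ (X.h r.2 (p.2 * β)).support,
            X.h r.2 (p.2 * β) z • X.B r.1 z y) := by
          refine Rep.sum fun z hz => ?_
          have hzne := Finsupp.mem_support_iff.1 hz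
          have hzb : z ∈ par X.cs (X.F b) :=
            (hAS S W H X.toBase (X.F b)).2.2.2.2.2.1 r.2 (hKb hr2) (p.2 * β) hpβ z hzne
          have hαz := ((X.pg b).p4 r.2 (hKb hr2) (p.2 * β) hpβ z hzb hzne).2
          refine z2 hAS hB1 hB3 hn hyb hr1 hr3 hzb (by omega) ?_
          intro κ' β' hκ' hβ' hz'
          rw [add_zero, hz']
          exact ((hAC S W H X.toBase X.K X.α hpgK).2 p.2 β r.2 κ' β' hβ hp2 hr2 hβ' hκ').1
        have h1 := Rep.smul (hq1 r) h0
        rwa [add_zero] at h1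
    · -- Z₃
      obtain ⟨hz1, hz2, hz3⟩ := he z hz
      refine z2 hAS hB1 hB3 hn hyb hxK le_rfl hz1 (by rw [← hg] at hz2; omega) ?_
      intro κ' β' hκ' hβ' hz'
      exact (hz3 κ' β' hκ' hβ' hz').mono (by omega)
  obtain ⟨e, h1, h2⟩ := key
  refine ⟨e, fun r hr => ?_, h2⟩
  obtain ⟨a1, a2, a3, a4, a5, a6⟩ := h1 r hr
  exact ⟨a1, a2, a3, a4, a5, fun κ' β' hκ' hβ' hr' => (a6 κ' β' hκ' hβ' hr').mono (by omega)⟩

end Pool.Agent.Helper60.AM
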